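import Mathlib
import Pool.Agent.H.MP_3b2a32_co.A

namespace Pool.Agent.Results.MP_3b2a32_co.All

/-- Vertices: pairs (U, V) of subspaces with dim U = 1 and U, V complementary. -/
def Vert (k : Type) [Field k] (n : ℕ) : Type :=
  {p : Submodule k (Fin n → k) × Submodule k (Fin n → k) //
    Module.finrank k p.1 = 1 ∧ IsCompl p.1 p.2}

/-- The span-colouring graph. -/
def A (k : Type) [Field k] (n : ℕ) : SimpleGraph (Vert k n) where
  Adj p q := p.1.1 ≤ q.1.2 ∧ q.1.1 ≤ p.1.2
  symm := ⟨fun _ _ h => ⟨h.2, h.1⟩⟩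
  loopless := ⟨fun p h => by
    have h1 := p.2.1
    rw [p.2.2.disjoint.eq_bot_of_le h.1] at h1
    simp at h1⟩

open Pool.Agent.H.MP_3b2a32_co in
theorem result (k : Type) [Field k] (n : ℕ) (hn : 3 ≤ n) :
    (n : ℕ∞) < (A k n).chromaticNumber := by
  classical
  obtain ⟨m, rfl⟩ := Nat.exists_eq_add_of_le hn
  by_contra hlt
  obtain ⟨C⟩ := SimpleGraph.chromaticNumber_le_iff_colorable.1 (not_lt.1 hlt)
  have mk : ∀ u f : Fin (3 + m) → k, f ⬝ᵥ u = 1 → ∃ p : Vert k (3 + m),
      p.1.1 = Submodule.span k {u} ∧ ∀ x, x ∈ p.1.2 ↔ f ⬝ᵥ x = 0 := by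
    intro u f h
    have hu : u ≠ 0 := by rintro rfl; simp at h
    let φ : (Fin (3 + m) → k) →ₗ[k] k :=
      { toFun := fun x => f ⬝ᵥ x
        map_add' := fun x y => dotProduct_add _ _ _
        map_smul' := fun c x => dotProduct_smul _ _ _ }
    refine ⟨⟨(Submodule.span k {u}, LinearMap.ker φ), finrank_span_singleton hu, ?_, ?_⟩, rfl,
      fun x => Iff.rfl⟩
    · rw [Submodule.disjoint_def]
      intro x hx hx'
      obtain ⟨a, rfl⟩ := Submodule.mem_span_singleton.1 hx
      have : f ⬝ᵥ (a • u) = 0 := hx'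
      rw [dotProduct_smul, h, smul_eq_mul, mul_one] at this
      simp [this]
    · rw [codisjoint_iff, eq_top_iff]
      intro x _
      refine Submodule.mem_sup.2 ⟨(f ⬝ᵥ x) • u, Submodule.smul_mem _ _
        (Submodule.mem_span_singleton_self u), x - (f ⬝ᵥ x) • u, ?_, by simp⟩
      change f ⬝ᵥ (x - (f ⬝ᵥ x) • u) = 0
      rw [dotProduct_sub, dotProduct_smul, h]
      simp
  choose v hv1 hv2 using mk
  have adj : ∀ u f h u' f' h', f ⬝ᵥ u' = 0 → f' ⬝ᵥ u = 0 → C (v u f h) ≠ C (v u' f' h') := by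
    intro u f h u' f' h' e1 e2
    refine C.valid ⟨?_, ?_⟩
    · rw [hv1, Submodule.span_singleton_le_iff_mem, hv2]; exact e2
    · rw [hv1, Submodule.span_singleton_le_iff_mem, hv2]; exact e1
  let ex : (Fin 3 → ℤ) → Fin (3 + m) → k := fun a => Fin.append (fun i => (a i : k)) 0
  let e : Fin m → Fin (3 + m) → k := fun j => Fin.append 0 (Pi.single j 1)
  have d1 : ∀ a b, ex a ⬝ᵥ ex b = ((a ⬝ᵥ b : ℤ) : k) := by
    intro a b; simp [ex, dotProduct, Fin.sum_univ_add]
  have d2 : ∀ a j, ex a ⬝ᵥ e j = 0 := by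
    intro a b; simp [ex, e, dotProduct, Fin.sum_univ_add]
  have d3 : ∀ a j, e j ⬝ᵥ ex a = 0 := by
    intro a b; rw [dotProduct_comm, d2]
  have d4 : ∀ i j, e i ⬝ᵥ e j = if i = j then 1 else 0 := by
    intro i j
    simp [e, dotProduct, Fin.sum_univ_add, Pi.single_apply, eq_comm]
  let a : ℕ → Fin (3 + m) := fun i => C (v (ex (U i)) (ex (P i)) (by rw [d1, unit]; simp))
  let b : Fin m → Fin (3 + m) := fun j => C (v (e j) (e j) (by rw [d4]; simp))
  have hb : Function.Injective b := by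
    intro i j h
    by_contra hij
    exact adj _ _ _ _ _ _ (by rw [d4]; simp [hij]) (by rw [d4]; simp [Ne.symm hij]) h
  let R : Finset (Fin (3 + m)) := Finset.univ \ Finset.univ.image b
  have hR : R.card = 3 := by
    rw [Finset.card_sdiff_of_subset (Finset.subset_univ _), Finset.card_image_of_injective _ hb]
    simp
  have ha : ∀ i, a i ∈ R := by
    intro i
    simp only [R, Finset.mem_sdiff, Finset.mem_univ, true_and, Finset.mem_image, not_exists]
    exact fun j => (adj _ _ _ _ _ _ (d2 _ _) (d3 _ _)).symm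
  let g := R.equivFinOfCardEq hR
  obtain ⟨i, j, hj, h⟩ := no3 (fun i => (g ⟨a i, ha i⟩).val) fun i => (g _).2
  have h' : a j = a i := congrArg Subtype.val (g.injective (Fin.ext h))
  exact adj _ _ _ _ _ _ (by rw [d1, (orth i j hj).2]; simp) (by rw [d1, (orth i j hj).1]; simp) h'

end Pool.Agent.Results.MP_3b2a32_co.All
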